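import Pool.Agent.Helper27.VF.Goals

set_option autoImplicit false

namespace Pool.Agent.Helper47.VF

open Pool.Agent.Helper27.VF

universe u

theorem out_smul {A W : Type u} [Group A] [MulAction A W] {G : SimpleGraph W} {K : Set W}
    (hG : ∀ (a : A) (x y : W), G.Adj x y → G.Adj (a • x) (a • y)) (g : A)
    (hK : ∀ x ∉ K, g • x ∉ K) {x z : W} (h : Out G K x z) : Out G K (g • x) (g • z) := by
  unfold Out at h ⊢
  induction h with
  | refl => exact Relation.ReflTransGen.refl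
  | tail _ hbc ih => exact ih.tail ⟨hG g _ _ hbc.1, hK _ hbc.2⟩

theorem tg_adj {W : Type u} {G : SimpleGraph W} {K : Set W} {x y : K} :
    (TG G K).Adj x y ↔ x ≠ y ∧ ((∃ z, Out G K x z ∧ G.Adj z y) ∨ (∃ z, Out G K y z ∧ G.Adj z x)) := by
  unfold TG
  rw [SimpleGraph.fromRel_adj]

theorem gTOF (hTOA : ToaStmt.{u}) (hTOB : TobStmt.{u}) (hTOC : TocStmt.{u})
    (hTOD : TodStmt.{u}) (hTOE : ToeStmt.{u}) : TofStmt.{u} := by
  intro A W _ _ G G₀ w p hS k hM htf
  obtain ⟨hinv, F, hF, hFK, hFo⟩ := hTOA A W G G₀ w p hS k hM htf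
  obtain ⟨hwK, hKp⟩ := hTOB A W G G₀ w p hS k hM
  have hNar := hTOC A W G G₀ w p hS k hM htf
  obtain ⟨hle, hconn, hlf⟩ := hTOD W G G₀ (Kp A G p k) hS.le hNar hS.conn ⟨w, hwK⟩ hS.lf
  set K := Kp A G p k with hK
  let act : MulAction (BB A G p k) K :=
    { smul := fun b x => ⟨(b : A) • (x : W), hinv b b.2 x x.2⟩
      one_smul := fun x => Subtype.ext (one_smul A (x : W))
      mul_smul := fun a b x => Subtype.ext (mul_smul (a : A) (b : A) (x : W)) }
  have hval : ∀ (b : BB A G p k) (x : K), ((b • x : K) : W) = (b : A) • (x : W) := fun b x => rfl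
  have hrange : Set.range (Subtype.val : K → W) ∈ p := by
    rw [Subtype.range_coe]; exact hKp
  let p' : Ultrafilter K := Ultrafilter.comap p Subtype.val_injective hrange
  have hp' : ∀ U : Set K, U ∈ p' ↔ Subtype.val '' U ∈ p := by
    intro U
    exact Ultrafilter.mem_comap p Subtype.val_injective hrange
  have hcompl : ∀ (g : BB A G p k) (x : W), x ∉ K → (g : A) • x ∉ K := by
    intro g x hx hgx
    apply hx
    have := hinv (g⁻¹ : BB A G p k) (g⁻¹ : BB A G p k).2 _ hgx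
    simpa using this
  have hadj : ∀ (H : SimpleGraph W), (∀ (a : A) (x y : W), H.Adj x y → H.Adj (a • x) (a • y)) →
      ∀ (g : BB A G p k) (x y : K), (TG H K).Adj x y → (TG H K).Adj (g • x) (g • y) := by
    intro H hH g x y hxy
    rw [tg_adj] at hxy ⊢
    obtain ⟨hne, h⟩ := hxy
    refine ⟨fun h => hne (by simpa using congrArg (fun z => g⁻¹ • z) h), ?_⟩
    rcases h with ⟨z, hz1, hz2⟩ | ⟨z, hz1, hz2⟩
    · left
      exact ⟨(g : A) • z, out_smul hH (g : A) (hcompl g) hz1, hH _ _ _ hz2⟩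
    · right
      exact ⟨(g : A) • z, out_smul hH (g : A) (hcompl g) hz1, hH _ _ _ hz2⟩
  refine ⟨K, act, TG G K, TG G₀ K, ⟨w, hwK⟩, p', ?_, ?_⟩
  · refine
    { free := ?_
      fin := ?_
      le := hle
      inv := hadj G hS.inv
      inv₀ := hadj G₀ hS.inv₀
      conn := hconn
      lf := hlf
      nonp := ?_
      nb := ?_ }
    · intro a x hax
      have h1 : (a : A) • (x : W) = (x : W) := by
        rw [← hval, hax]
      have := hS.free _ _ h1
      exact Subtype.ext this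
    · refine ⟨{x : K | (x : W) ∈ F}, ?_, ?_⟩
      · exact hF.preimage Subtype.val_injective.injOn
      · intro x
        obtain ⟨g, hg, f, hf, hgf⟩ := hFo x x.2
        exact ⟨⟨g, hg⟩, ⟨f, hFK hf⟩, hf, Subtype.ext hgf⟩
    · intro F' hF' h
      rw [hp'] at h
      exact hS.nonp _ (hF'.image _) h
    · rw [hp']
      refine Filter.mem_of_superset (Filter.inter_mem hS.nb hKp) ?_
      rintro x ⟨hx1, hx2⟩
      refine ⟨⟨x, hx2⟩, ?_, rfl⟩
      show (TG G K).Adj _ _
      rw [tg_adj]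
      refine ⟨?_, Or.inl ⟨w, Relation.ReflTransGen.refl, hx1⟩⟩
      intro h
      have : w = x := congrArg Subtype.val h
      have hx1' : G.Adj w x := hx1
      rw [this] at hx1'
      exact G.loopless.irrefl _ hx1'
  · rintro ⟨Z, hZ, hZd⟩
    refine ⟨Subtype.val '' Z, hZ.image Subtype.val_injective.injOn, ?_⟩
    rintro _ ⟨a, ha, rfl⟩ _ ⟨b, hb, rfl⟩ c hc ⟨h1, h2⟩
    obtain ⟨c', hc', X, hX, hX1, hX2⟩ := hTOE W G K hNar c hc
    apply hZd a ha b hb c' hc'
    constructor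
    · unfold Inn
      rw [hp']
      have h3 : Inn p (a : A) Xᶜ := inn_compl.2 (not_inn_finite hS hX)
      refine Filter.mem_of_superset (Filter.inter_mem (Filter.inter_mem h1 h3) hKp) ?_
      rintro x ⟨⟨hx1, hx2⟩, hx3⟩
      exact ⟨⟨x, hx3⟩, hX1 _ hx1 hx2, rfl⟩
    · unfold Inn
      rw [hp']
      have h3 : Inn p (b : A) Xᶜ := inn_compl.2 (not_inn_finite hS hX)
      refine Filter.mem_of_superset (Filter.inter_mem (Filter.inter_mem h2 h3) hKp) ?_
      rintro x ⟨⟨hx1, hx2⟩, hx3⟩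
      exact ⟨⟨x, hx3⟩, hX2 _ hx1 hx2, rfl⟩

end Pool.Agent.Helper47.VF
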